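import Mathlib

set_option autoImplicit false

open Polynomial

namespace Pool.Agent.Results.MP_eda2d2_co.Counterexamples

/-- The common factor `M_t = φ_{pqr}^d φ_{pq}^a φ_{pr}^b φ_{qr}^c`, for `t = (a, b, c, d)`. -/
noncomputable def M (p q r : ℕ) (t : ℕ × ℕ × ℕ × ℕ) : ℤ[X] :=
  cyclotomic (p * q * r) ℤ ^ t.2.2.2 * cyclotomic (p * q) ℤ ^ t.1 *
    cyclotomic (p * r) ℤ ^ t.2.1 * cyclotomic (q * r) ℤ ^ t.2.2.1

/-- `A_t = x (φ_p φ_q)^2 M_t`. -/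
noncomputable def A (p q r : ℕ) (t : ℕ × ℕ × ℕ × ℕ) : ℤ[X] :=
  X * (cyclotomic p ℤ * cyclotomic q ℤ) ^ 2 * M p q r t

/-- `B_t = x φ_r^2 M_t`. -/
noncomputable def B (p q r : ℕ) (t : ℕ × ℕ × ℕ × ℕ) : ℤ[X] :=
  X * cyclotomic r ℤ ^ 2 * M p q r t

/-- The complementary tuple `(2-a, 2-b, 2-c, 2-d)`. -/
def bar (t : ℕ × ℕ × ℕ × ℕ) : ℕ × ℕ × ℕ × ℕ :=
  (2 - t.1, 2 - t.2.1, 2 - t.2.2.1, 2 - t.2.2.2)

/-- The ten tuples `(2,0,0,0)`, `(2,1,0,1)`, `(2,0,1,1)`, `(2,1,1,1)` and `(2,b,c,2)` with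
`b, c ≤ 2`, `b + c ≥ 2`. -/
def T : Set (ℕ × ℕ × ℕ × ℕ) :=
  {t | t = (2, 0, 0, 0) ∨ t = (2, 1, 0, 1) ∨ t = (2, 0, 1, 1) ∨ t = (2, 1, 1, 1) ∨
    ∃ b c : ℕ, b ≤ 2 ∧ c ≤ 2 ∧ 2 ≤ b + c ∧ t = (2, b, c, 2)}

/-- The set `S` of the problem: tuples `(a,b,c,d)` of `{0,1,2}^4` with
`2 + d ≤ a + b + c ≤ 4 + d`, not in `T` and different from `(1,1,1,1)`. -/
def S : Set (ℕ × ℕ × ℕ × ℕ) :=
  {t | t.1 ≤ 2 ∧ t.2.1 ≤ 2 ∧ t.2.2.1 ≤ 2 ∧ t.2.2.2 ≤ 2 ∧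
    2 + t.2.2.2 ≤ t.1 + t.2.1 + t.2.2.1 ∧ t.1 + t.2.1 + t.2.2.1 ≤ 4 + t.2.2.2 ∧
    t ∉ T ∧ t ≠ (1, 1, 1, 1)}

/-- All coefficients of the polynomial are nonnegative. -/
def Nonneg (f : ℤ[X]) : Prop := ∀ n : ℕ, 0 ≤ f.coeff n

theorem Nonneg.add {f g : ℤ[X]} (hf : Nonneg f) (hg : Nonneg g) : Nonneg (f + g) := by
  intro n
  rw [coeff_add]
  exact add_nonneg (hf n) (hg n)

theorem Nonneg.mul {f g : ℤ[X]} (hf : Nonneg f) (hg : Nonneg g) : Nonneg (f * g) := by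
  intro n
  rw [coeff_mul]
  exact Finset.sum_nonneg fun x _ => mul_nonneg (hf _) (hg _)

theorem Nonneg.one : Nonneg (1 : ℤ[X]) := by
  intro n
  rw [coeff_one]
  split_ifs <;> simp

theorem Nonneg.X : Nonneg (X : ℤ[X]) := by
  intro n
  rw [coeff_X]
  split_ifs <;> simp

theorem Nonneg.pow {f : ℤ[X]} (hf : Nonneg f) (k : ℕ) : Nonneg (f ^ k) := by
  induction k with
  | zero => simpa using Nonneg.one
  | succ k ih => rw [pow_succ]; exact ih.mul hf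

theorem Nonneg.sum {ι : Type} (s : Finset ι) (f : ι → ℤ[X]) (hf : ∀ i, Nonneg (f i)) :
    Nonneg (∑ i ∈ s, f i) := by
  intro n
  rw [finsetSum_coeff]
  exact Finset.sum_nonneg fun i _ => hf i n

theorem Nonneg.expand {f : ℤ[X]} (hf : Nonneg f) {k : ℕ} (hk : 0 < k) :
    Nonneg (Polynomial.expand ℤ k f) := by
  intro n
  rw [coeff_expand hk]
  split_ifs
  · exact hf _
  · exact le_rfl

theorem Nonneg.two : Nonneg (2 : ℤ[X]) := by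
  have : (2 : ℤ[X]) = 1 + 1 := by norm_num
  rw [this]
  exact Nonneg.one.add Nonneg.one

theorem Nonneg.cyclotomic_prime {q : ℕ} (hq : q.Prime) : Nonneg (cyclotomic q ℤ) := by
  have := Fact.mk hq
  rw [Polynomial.cyclotomic_prime]
  exact Nonneg.sum _ _ fun i => Nonneg.X.pow i

/-- `φ_{2qr} φ_{qr} = φ_{qr}(x^2)` for odd primes. -/
theorem expand_two_qr {q r : ℕ} (hq : q.Prime) (hr : r.Prime) (hq2 : q ≠ 2) (hr2 : r ≠ 2) :
    expand ℤ 2 (cyclotomic (q * r) ℤ) = cyclotomic (2 * q * r) ℤ * cyclotomic (q * r) ℤ := by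
  have hdiv : ¬ 2 ∣ q * r := by
    intro h
    rcases (Nat.Prime.dvd_mul Nat.prime_two).1 h with h | h
    · exact hq2 ((Nat.prime_dvd_prime_iff_eq Nat.prime_two hq).1 h).symm
    · exact hr2 ((Nat.prime_dvd_prime_iff_eq Nat.prime_two hr).1 h).symm
  rw [cyclotomic_expand_eq_cyclotomic_mul Nat.prime_two hdiv ℤ]
  congr 2
  ring

theorem expand_two_q {q : ℕ} (hq : q.Prime) (hq2 : q ≠ 2) :
    expand ℤ 2 (cyclotomic q ℤ) = cyclotomic (2 * q) ℤ * cyclotomic q ℤ := by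
  have hdiv : ¬ 2 ∣ q := by
    intro h
    exact hq2 ((Nat.prime_dvd_prime_iff_eq Nat.prime_two hq).1 h).symm
  rw [cyclotomic_expand_eq_cyclotomic_mul Nat.prime_two hdiv ℤ]
  congr 2
  ring

theorem expand_r_q {q r : ℕ} (hq : q.Prime) (hr : r.Prime) (hqr : q ≠ r) :
    expand ℤ r (cyclotomic q ℤ) = cyclotomic (q * r) ℤ * cyclotomic q ℤ := by
  have hdiv : ¬ r ∣ q := by
    intro h
    exact hqr ((Nat.prime_dvd_prime_iff_eq hr hq).1 h).symm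
  exact cyclotomic_expand_eq_cyclotomic_mul hr hdiv ℤ

/-- The factorisation of `A_{(2,2,1,1)}` for `p = 2`. -/
theorem A_eq {q r : ℕ} (hq : q.Prime) (hr : r.Prime) (hq2 : q ≠ 2) (hr2 : r ≠ 2) (hqr : q ≠ r) :
    A 2 q r (2, 2, 1, 1) =
      X * (expand ℤ r (cyclotomic 2 ℤ)) ^ 2 * expand ℤ 2 (cyclotomic q ℤ) *
        expand ℤ 2 (expand ℤ r (cyclotomic q ℤ)) := by
  rw [expand_r_q hq hr hqr, expand_r_q Nat.prime_two hr (Ne.symm hr2), map_mul,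
    expand_two_qr hq hr hq2 hr2, expand_two_q hq hq2]
  simp only [A, M]
  ring

theorem nonneg_A {q r : ℕ} (hq : q.Prime) (hr : r.Prime) (hq2 : q ≠ 2) (hr2 : r ≠ 2)
    (hqr : q ≠ r) : Nonneg (A 2 q r (2, 2, 1, 1)) := by
  rw [A_eq hq hr hq2 hr2 hqr]
  exact ((Nonneg.X.mul (((Nonneg.cyclotomic_prime Nat.prime_two).expand hr.pos).pow 2)).mul
    ((Nonneg.cyclotomic_prime hq).expand two_pos)).mul
    (((Nonneg.cyclotomic_prime hq).expand hr.pos).expand two_pos)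

/-- The explicit form of `B_{(0,0,1,1)}` for `p = 2` and `r = 2 q u + 1`. -/
theorem B_eq {q r u : ℕ} (hq : q.Prime) (hr : r.Prime) (hq2 : q ≠ 2) (hr2 : r ≠ 2)
    (hqr : q ≠ r) (hu : r = 2 * q * u + 1) :
    B 2 q r (0, 0, 1, 1) =
      X * ((∑ i ∈ Finset.range r, (X ^ (2 * q)) ^ i) +
        2 * X * (∑ i ∈ Finset.range r, X ^ i) * (∑ i ∈ Finset.range q, (X ^ (2 * r)) ^ i) *
          (∑ i ∈ Finset.range u, (X ^ (2 * q)) ^ i)) := by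
  have hB : B 2 q r (0, 0, 1, 1) =
      X * ((cyclotomic r ℤ) ^ 2 * expand ℤ 2 (cyclotomic (q * r) ℤ)) := by
    rw [expand_two_qr hq hr hq2 hr2]
    simp only [B, M]
    ring
  rw [hB]
  congr 1
  have h0 : ((X : ℤ[X]) ^ (2 * q) - 1) ≠ 0 := by
    have hpos : 0 < 2 * q := Nat.mul_pos two_pos hq.pos
    exact X_pow_sub_C_ne_zero hpos 1
  -- the geometric sums
  have hcr : cyclotomic r ℤ = ∑ i ∈ Finset.range r, X ^ i := by
    have := Fact.mk hr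
    exact Polynomial.cyclotomic_prime ℤ r
  have hg : (∑ i ∈ Finset.range r, (X : ℤ[X]) ^ i) * (X - 1) = X ^ r - 1 := geom_sum_mul _ _
  have h1 : (∑ i ∈ Finset.range r, ((X : ℤ[X]) ^ (2 * q)) ^ i) * (X ^ (2 * q) - 1) =
      (X ^ (2 * q)) ^ r - 1 := geom_sum_mul _ _
  have h2 : (∑ i ∈ Finset.range q, ((X : ℤ[X]) ^ (2 * r)) ^ i) * (X ^ (2 * r) - 1) =
      (X ^ (2 * r)) ^ q - 1 := geom_sum_mul _ _
  have h3 : (∑ i ∈ Finset.range u, ((X : ℤ[X]) ^ (2 * q)) ^ i) * (X ^ (2 * q) - 1) =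
      (X ^ (2 * q)) ^ u - 1 := geom_sum_mul _ _
  have h4 : (∑ i ∈ Finset.range q, ((X : ℤ[X]) ^ 2) ^ i) * (X ^ 2 - 1) =
      (X ^ 2) ^ q - 1 := geom_sum_mul _ _
  -- `φ_{qr}(x^2) φ_q(x^2) = φ_q(x^{2r})`
  have h5 : expand ℤ 2 (cyclotomic (q * r) ℤ) * (∑ i ∈ Finset.range q, ((X : ℤ[X]) ^ 2) ^ i) =
      ∑ i ∈ Finset.range q, ((X : ℤ[X]) ^ (2 * r)) ^ i := by
    have hcq : cyclotomic q ℤ = ∑ i ∈ Finset.range q, X ^ i := by
      have := Fact.mk hq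
      exact Polynomial.cyclotomic_prime ℤ q
    have e1 : (∑ i ∈ Finset.range q, ((X : ℤ[X]) ^ 2) ^ i) = expand ℤ 2 (cyclotomic q ℤ) := by
      rw [hcq, map_sum]
      refine Finset.sum_congr rfl fun i _ => ?_
      rw [map_pow, expand_X]
    have e2 : (∑ i ∈ Finset.range q, ((X : ℤ[X]) ^ (2 * r)) ^ i) =
        expand ℤ 2 (expand ℤ r (cyclotomic q ℤ)) := by
      rw [hcq, map_sum, map_sum]
      refine Finset.sum_congr rfl fun i _ => ?_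
      rw [map_pow, map_pow, expand_X, map_pow, expand_X, ← pow_mul, ← pow_mul, ← pow_mul,
        mul_assoc]
    rw [e1, e2, expand_r_q hq hr hqr, map_mul]
  have e3 : ((X : ℤ[X]) ^ (2 * q)) ^ u * X = X ^ r := by
    rw [← pow_mul, ← pow_succ, hu]
  have e4 : ((X : ℤ[X]) ^ (2 * q)) ^ r = (X ^ (2 * r)) ^ q := by
    rw [← pow_mul, ← pow_mul]
    congr 1
    ring
  have e5 : ((X : ℤ[X]) ^ 2) ^ q = X ^ (2 * q) := by rw [← pow_mul]
  have e6 : ((X : ℤ[X]) ^ (2 * r)) = X ^ r * X ^ r := by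
    rw [← pow_add]
    congr 1
    ring
  apply mul_right_cancel₀ h0
  rw [hcr]
  rw [e5] at h4
  rw [e4] at h1
  generalize hG : (∑ i ∈ Finset.range r, (X : ℤ[X]) ^ i) = g at *
  generalize hK : (∑ i ∈ Finset.range r, ((X : ℤ[X]) ^ (2 * q)) ^ i) = k at *
  generalize hH : (∑ i ∈ Finset.range q, ((X : ℤ[X]) ^ (2 * r)) ^ i) = h at *
  generalize hL : (∑ i ∈ Finset.range u, ((X : ℤ[X]) ^ (2 * q)) ^ i) = l at *
  generalize hN : (∑ i ∈ Finset.range q, ((X : ℤ[X]) ^ 2) ^ i) = m at *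
  generalize hY : expand ℤ 2 (cyclotomic (q * r) ℤ) = y at *
  have f1 : (X : ℤ[X]) ^ r = 1 + g * (X - 1) := by rw [hg]; ring
  -- left-hand side
  have lhs : g ^ 2 * y * (X ^ (2 * q) - 1) = g ^ 2 * (X ^ 2 - 1) * h := by
    rw [← h4, ← h5]
    ring
  have rhs : (k + 2 * X * g * h * l) * (X ^ (2 * q) - 1) =
      h * (X ^ r * X ^ r - 1) + 2 * g * h * (X ^ r - X) := by
    have : (k + 2 * X * g * h * l) * (X ^ (2 * q) - 1) =
        k * (X ^ (2 * q) - 1) + 2 * X * g * h * (l * (X ^ (2 * q) - 1)) := by ring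
    rw [this, h1, h3, ← h2, e6, ← e3]
    ring
  rw [lhs, rhs, f1]
  ring

theorem nonneg_B {q r u : ℕ} (hq : q.Prime) (hr : r.Prime) (hq2 : q ≠ 2) (hr2 : r ≠ 2)
    (hqr : q ≠ r) (hu : r = 2 * q * u + 1) : Nonneg (B 2 q r (0, 0, 1, 1)) := by
  rw [B_eq hq hr hq2 hr2 hqr hu]
  refine Nonneg.X.mul (Nonneg.add ?_ ?_)
  · exact Nonneg.sum _ _ fun i => (Nonneg.X.pow _).pow i
  · exact (((Nonneg.two.mul Nonneg.X).mul (Nonneg.sum _ _ fun i => Nonneg.X.pow i)).mul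
      (Nonneg.sum _ _ fun i => (Nonneg.X.pow _).pow i)).mul
      (Nonneg.sum _ _ fun i => (Nonneg.X.pow _).pow i)

theorem mem_S : (2, 2, 1, 1) ∈ S := by
  refine ⟨le_rfl, le_rfl, by norm_num, by norm_num, by norm_num, by norm_num, ?_, by decide⟩
  rintro (h | h | h | h | ⟨b, c, _, _, _, h⟩) <;> simp at h

/-- **Q1 is false.** The tuple `(2,2,1,1)` lies in `S`, and for every odd prime `q` and every
prime `r ≡ 1 (mod q)` (for instance `q = 3`, `r = 7`) the numbers `2, q, r` are distinct primes for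
which both members `A_{(2,2,1,1)}` and `B_{(0,0,1,1)}` of the pair attached to `(2,2,1,1)` have only
nonnegative coefficients. -/
theorem result :
    (2, 2, 1, 1) ∈ S ∧
      ∀ q r : ℕ, q.Prime → r.Prime → q ≠ 2 → r ≡ 1 [MOD q] →
        2 ≠ q ∧ 2 ≠ r ∧ q ≠ r ∧
          Nonneg (A 2 q r (2, 2, 1, 1)) ∧ Nonneg (B 2 q r (bar (2, 2, 1, 1))) := by
  refine ⟨mem_S, fun q r hq hr hq2 hmod => ?_⟩
  have hq3 : 3 ≤ q := by
    have := hq.two_le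
    omega
  have hdvd : q ∣ r - 1 := (Nat.modEq_iff_dvd' hr.one_lt.le).1 hmod.symm
  have hr1 : 0 < r - 1 := Nat.sub_pos_of_lt hr.one_lt
  have hle : q ≤ r - 1 := Nat.le_of_dvd hr1 hdvd
  have hr2 : r ≠ 2 := by omega
  have hqr : q ≠ r := by omega
  have hodd : 2 ∣ r - 1 := by
    rcases hr.eq_two_or_odd with h | h
    · exact absurd h hr2
    · omega
  have hcop : Nat.Coprime 2 q :=
    (Nat.coprime_primes Nat.prime_two hq).2 (Ne.symm hq2)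
  obtain ⟨u, hu⟩ := Nat.Coprime.mul_dvd_of_dvd_of_dvd hcop hodd hdvd
  have hu' : r = 2 * q * u + 1 := by omega
  exact ⟨Ne.symm hq2, Ne.symm hr2, hqr, nonneg_A hq hr hq2 hr2 hqr,
    nonneg_B hq hr hq2 hr2 hqr hu'⟩

end Pool.Agent.Results.MP_eda2d2_co.Counterexamples
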